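import Mathlib
import Pool.Agent.H30.T4.Defs

/-! Project T4 (MP_68c2bd): the subgroup of the elements that act trivially modulo a subspace. -/

set_option autoImplicit false

namespace Pool.Agent.H1.T4

open NormedSpace Module Pool.Agent.H71.AU Pool.Agent.H14.HP Pool.Agent.H14.HR Pool.Agent.H30.T4

variable {E : Type*} [NormedAddCommGroup E] [NormedSpace ℝ E] {Γ : Type*} [Group Γ]

/-- The elements that act trivially modulo `V`. -/
def Kq (π : Γ →* (E →L[ℝ] E)) (V : Submodule ℝ E) : Subgroup Γ where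
  carrier := {g | ∀ z, π g z - z ∈ V}
  mul_mem' := by
    intro g h hg hh z
    have e : π (g * h) z - z = (π g (π h z) - π h z) + (π h z - z) := by
      rw [map_mul]
      show π g (π h z) - z = _
      abel
    rw [e]
    exact V.add_mem (hg _) (hh _)
  one_mem' := by
    intro z
    rw [map_one]
    show z - z ∈ V
    rw [sub_self]
    exact V.zero_mem
  inv_mem' := by
    intro g hg z
    have e1 : π g (π g⁻¹ z) = z := by
      have : (π g * π g⁻¹) z = z := by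
        rw [← map_mul, mul_inv_cancel, map_one]; rfl
      exact this
    have e : π g⁻¹ z - z = -(π g (π g⁻¹ z) - π g⁻¹ z) := by
      rw [e1]; abel
    rw [e]
    exact V.neg_mem (hg _)

theorem mem_Kq {π : Γ →* (E →L[ℝ] E)} {V : Submodule ℝ E} {g : Γ} :
    g ∈ Kq π V ↔ ∀ z, π g z - z ∈ V := Iff.rfl

theorem Kq_normal (π : Γ →* (E →L[ℝ] E)) (V : Submodule ℝ E) (hV : Inv π V) :
    (Kq π V).Normal := by
  refine ⟨fun k hk g => ?_⟩
  intro z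
  have e1 : π g (π g⁻¹ z) = z := by
    have : (π g * π g⁻¹) z = z := by
      rw [← map_mul, mul_inv_cancel, map_one]; rfl
    exact this
  have e : π (g * k * g⁻¹) z - z = π g (π k (π g⁻¹ z) - π g⁻¹ z) := by
    rw [map_sub, e1, map_mul, map_mul]
    rfl
  rw [e]
  exact hV g _ (hk _)

/-- Right multiplication by a finite set covers: finite index. -/
private theorem Kq_idx {G : Type*} [Group G] (H : Subgroup G) (Φ : Set G) (hΦ : Φ.Finite)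
    (h : ∀ g : G, ∃ k ∈ H, ∃ φ ∈ Φ, g = k * φ) : H.FiniteIndex := by
  have : Finite Φ := hΦ
  have hs : Function.Surjective (fun φ : Φ => (QuotientGroup.mk ((φ : G)⁻¹) : G ⧸ H)) := by
    intro q
    obtain ⟨g, rfl⟩ := QuotientGroup.mk_surjective q
    obtain ⟨k, hk, φ, hφ, e⟩ := h g⁻¹
    refine ⟨⟨φ, hφ⟩, ?_⟩
    rw [QuotientGroup.eq]
    have : (((⟨φ, hφ⟩ : Φ) : G)⁻¹)⁻¹ * g = k⁻¹ := by
      have e2 : g = (k * φ)⁻¹ := by rw [← e, inv_inv]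
      rw [e2]
      simp
    rw [this]
    exact H.inv_mem hk
  have : Finite (G ⧸ H) := Finite.of_surjective _ hs
  exact Subgroup.finiteIndex_of_finite_quotient

variable {π : Γ →* (E →L[ℝ] E)} {τ : E →L[ℝ] ℝ} {A : Subgroup Γ}

/-- Properness modulo `V`. -/
theorem Kq_proper (S : Sys π τ) (V : Submodule ℝ E) (hτ : ∀ v ∈ V, τ v = 0)
    (hfib : ∀ R : ℝ, ∃ R' : ℝ, ∀ y v : E, τ y = 1 → ‖y‖ ≤ R → v ∈ V →
      ∃ a ∈ A, (∀ z, π a z - z ∈ V) ∧ ‖π a (y + v)‖ ≤ R') :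
    ∀ R : ℝ, ∃ Φ : Set Γ, Φ.Finite ∧ ∀ (g : Γ) (x v : E), τ x = 1 → ‖x‖ ≤ R → v ∈ V →
      ‖π g x + v‖ ≤ R → ∃ k ∈ A ⊓ Kq π V, ∃ φ ∈ Φ, g = k * φ := by
  intro R
  obtain ⟨R', hR'⟩ := hfib R
  refine ⟨{g : Γ | ∃ x, τ x = 1 ∧ ‖x‖ ≤ max R R' ∧ ‖π g x‖ ≤ max R R'}, S.prop _, ?_⟩
  intro g x v hx hxR hv hg
  have h1 : τ (π g x + v) = 1 := by
    rw [map_add, S.tau, hx, hτ v hv, add_zero]
  obtain ⟨a, ha, ha2, ha3⟩ := hR' (π g x + v) (-v) h1 hg (V.neg_mem hv)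
  have h2 : π g x + v + -v = π g x := by abel
  rw [h2] at ha3
  have h3 : π (a * g) x = π a (π g x) := by
    rw [map_mul]; rfl
  refine ⟨a⁻¹, Subgroup.inv_mem _ ⟨ha, ha2⟩, a * g, ⟨x, hx, hxR.trans (le_max_left _ _), ?_⟩, ?_⟩
  · rw [h3]
    exact ha3.trans (le_max_right _ _)
  · group

/-- The elements that act trivially modulo `V` form a virtually abelian group. -/
theorem Kq_vs (S : Sys π τ) (hcomm : ∀ a ∈ A, ∀ b ∈ A, a * b = b * a) {x₀ : E} (hx : τ x₀ = 1)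
    (V : Submodule ℝ E)
    (hfib : ∀ R : ℝ, ∃ R' : ℝ, ∀ y v : E, τ y = 1 → ‖y‖ ≤ R → v ∈ V →
      ∃ a ∈ A, (∀ z, π a z - z ∈ V) ∧ ‖π a (y + v)‖ ≤ R') : VS (Kq π V) := by
  obtain ⟨R', hR'⟩ := hfib ‖x₀‖
  obtain ⟨Φ, hΦ⟩ : ∃ Φ : Set Γ, Φ = {g : Γ | ∃ x, τ x = 1 ∧ ‖x‖ ≤ max ‖x₀‖ R' ∧
    ‖π g x‖ ≤ max ‖x₀‖ R'} := ⟨_, rfl⟩
  have hΦf : Φ.Finite := by
    rw [hΦ]; exact S.prop _
  have hcov : ∀ g ∈ Kq π V, ∃ k ∈ A ⊓ Kq π V, ∃ φ ∈ Φ, g = k * φ := by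
    intro g hg
    obtain ⟨a, ha, ha2, ha3⟩ := hR' x₀ (π g x₀ - x₀) hx le_rfl (hg x₀)
    have h2 : x₀ + (π g x₀ - x₀) = π g x₀ := by abel
    rw [h2] at ha3
    have h3 : π (a * g) x₀ = π a (π g x₀) := by
      rw [map_mul]; rfl
    refine ⟨a⁻¹, Subgroup.inv_mem _ ⟨ha, ha2⟩, a * g, ?_, ?_⟩
    · rw [hΦ]
      refine ⟨x₀, hx, le_max_left _ _, ?_⟩
      rw [h3]
      exact ha3.trans (le_max_right _ _)
    · group
  refine ⟨(A ⊓ Kq π V).subgroupOf (Kq π V), ?_, ?_⟩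
  · refine Kq_idx _ ((↑) ⁻¹' Φ : Set (Kq π V)) (hΦf.preimage Subtype.val_injective.injOn) ?_
    rintro ⟨g, hg⟩
    obtain ⟨k, hk, φ, hφ, e⟩ := hcov g hg
    have hφK : φ ∈ Kq π V := by
      have : φ = k⁻¹ * g := by rw [e]; group
      rw [this]
      exact Subgroup.mul_mem _ (Subgroup.inv_mem _ hk.2) hg
    refine ⟨⟨k, hk.2⟩, ?_, ⟨φ, hφK⟩, hφ, ?_⟩
    · rw [Subgroup.mem_subgroupOf]
      exact hk
    · exact Subtype.ext e
  · refine Group.isSolvable_of_comm ?_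
    rintro ⟨⟨x, hx1⟩, hx2⟩ ⟨⟨y, hy1⟩, hy2⟩
    rw [Subgroup.mem_subgroupOf] at hx2 hy2
    apply Subtype.ext
    apply Subtype.ext
    exact hcomm x hx2.1 y hy2.1

variable [CompleteSpace E] {x₀ : E} {n : ℕ}

/-- The span of the images lies in `τ = 0`. -/
theorem vu_tau (C : Cf π τ x₀ A n) (F : ℕ → Submodule ℝ E) : ∀ v ∈ Vu π A F, τ v = 0 := by
  have h1 : ∀ X ∈ hh π A, ∀ y, τ (X y) = 0 := by
    intro X hX
    unfold hh at hX
    induction hX using Submodule.span_induction with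
    | mem X hX =>
      obtain ⟨a, ha, rfl⟩ := hX
      intro y
      obtain ⟨Y, hY, -⟩ := lg_spec (C.uni a ha)
      have e : lg (π a) y = π a (Y y) - Y y := by
        rw [hY]; rfl
      rw [e, map_sub, C.sys.tau, sub_self]
    | zero =>
      intro y
      exact map_zero τ
    | add X Z _ _ hX hZ =>
      intro y
      have e : (X + Z) y = X y + Z y := rfl
      rw [e, map_add, hX, hZ, add_zero]
    | smul c X _ hX =>
      intro y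
      have e : (c • X) y = c • X y := rfl
      rw [e, map_smul, hX, smul_zero]
  intro v hv
  unfold Vu at hv
  induction hv using Submodule.span_induction with
  | mem v hv =>
    obtain ⟨X, hX, y, rfl⟩ := hv
    exact h1 X hX.1 y
  | zero => exact map_zero τ
  | add v w _ _ hv hw => rw [map_add, hv, hw, add_zero]
  | smul c v _ hv => rw [map_smul, hv, smul_zero]

/-- The subgroup `K` of the elements that act trivially modulo `Vu`: it is normal, virtually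
solvable, and the action modulo `Vu` is proper modulo `K`. -/
theorem quoK (C : Cf π τ x₀ A n) {F : ℕ → Submodule ℝ E} (hV : Inv π (Vu π A F))
    (hfib : ∀ R : ℝ, ∃ R' : ℝ, ∀ y v : E, τ y = 1 → ‖y‖ ≤ R → v ∈ Vu π A F →
      ∃ a ∈ A, π a - 1 ∈ JJ F ∧ (∀ z, π a z - z ∈ Vu π A F) ∧ ‖π a (y + v)‖ ≤ R') :
    (Kq π (Vu π A F)).Normal ∧ VS (Kq π (Vu π A F)) ∧
    ∀ R : ℝ, ∃ Φ : Set Γ, Φ.Finite ∧ ∀ (g : Γ) (x v : E), τ x = 1 → ‖x‖ ≤ R → v ∈ Vu π A F →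
      ‖π g x + v‖ ≤ R → ∃ k ∈ Kq π (Vu π A F), ∃ φ ∈ Φ, g = k * φ := by
  have h : ∀ R : ℝ, ∃ R' : ℝ, ∀ y v : E, τ y = 1 → ‖y‖ ≤ R → v ∈ Vu π A F →
      ∃ a ∈ A, (∀ z, π a z - z ∈ Vu π A F) ∧ ‖π a (y + v)‖ ≤ R' := by
    intro R
    obtain ⟨R', hR'⟩ := hfib R
    refine ⟨R', fun y v h1 h2 h3 => ?_⟩
    obtain ⟨a, ha, -, h4, h5⟩ := hR' y v h1 h2 h3
    exact ⟨a, ha, h4, h5⟩
  refine ⟨Kq_normal π _ hV, Kq_vs C.sys C.comm C.tx _ h, fun R => ?_⟩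
  obtain ⟨Φ, hΦ, h2⟩ := Kq_proper C.sys _ (vu_tau C F) h R
  refine ⟨Φ, hΦ, fun g x v h3 h4 h5 h6 => ?_⟩
  obtain ⟨k, hk, φ, hφ, e⟩ := h2 g x v h3 h4 h5 h6
  exact ⟨k, hk.2, φ, hφ, e⟩

end Pool.Agent.H1.T4
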