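import Mathlib
import Pool.Agent.H30.T4.Defs
import Pool.Agent.H1.T4.QuoK

/-! Project T4 (MP_68c2bd): the image of `A` modulo `Kq` contains a free abelian group of the
right rank. -/

set_option autoImplicit false

namespace Pool.Agent.H1.T4

open NormedSpace Module Pool.Agent.H71.AU Pool.Agent.H14.HP Pool.Agent.H14.HR Pool.Agent.H30.T4

variable {E : Type*} [NormedAddCommGroup E] [NormedSpace ℝ E] [CompleteSpace E]
  [FiniteDimensional ℝ E] {Γ : Type*} [Group Γ] {π : Γ →* (E →L[ℝ] E)} {τ : E →L[ℝ] ℝ} {x₀ : E}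
  {A : Subgroup Γ} {n : ℕ}

/-- Linear algebra: a family of `n` vectors that spans the space `h`, independent modulo a
subspace `u`. -/
private theorem Qz_pick {W : Type*} [AddCommGroup W] [Module ℝ W] [FiniteDimensional ℝ W] {n : ℕ}
    (v : Fin n → W) (h u : Submodule ℝ W) (huh : u ≤ h)
    (hspan : Submodule.span ℝ (Set.range v) = h) {m : ℕ} (hm : finrank ℝ h = m) :
    ∃ a : Fin (m - finrank ℝ u) → Fin n,
      LinearIndependent ℝ (fun j => u.mkQ (v (a j))) := by
  subst hm
  obtain ⟨κ, a, ha, hsp, hli⟩ := exists_linearIndependent' ℝ (fun i => u.mkQ (v i))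
  have hκ : Finite κ := Finite.of_injective a ha
  have := Fintype.ofFinite κ
  have h1 : finrank ℝ (Submodule.span ℝ (Set.range ((fun i => u.mkQ (v i)) ∘ a))) =
      Fintype.card κ := finrank_span_eq_card hli
  have h2 : Submodule.span ℝ (Set.range (fun i => u.mkQ (v i))) = h.map u.mkQ := by
    rw [← hspan, Submodule.map_span, ← Set.range_comp]
    rfl
  have h3 : finrank ℝ (h.map u.mkQ) = finrank ℝ h - finrank ℝ u := by
    have e1 := LinearMap.finrank_range_add_finrank_ker (u.mkQ.domRestrict h)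
    have e2 : LinearMap.range (u.mkQ.domRestrict h) = h.map u.mkQ := by
      rw [LinearMap.range_domRestrict]
    have e3 : LinearMap.ker (u.mkQ.domRestrict h) = u.comap h.subtype := by
      rw [LinearMap.ker_domRestrict, Submodule.ker_mkQ]
    have e4 : finrank ℝ (u.comap h.subtype) = finrank ℝ u :=
      (Submodule.comapSubtypeEquivOfLe huh).finrank_eq
    rw [e2, e3, e4] at e1
    omega
  have h4 : Fintype.card κ = finrank ℝ h - finrank ℝ u := by
    rw [← h1, hsp, h2, h3]
  let e : Fin (finrank ℝ h - finrank ℝ u) ≃ κ := (Fintype.equivFinOfCardEq h4).symm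
  exact ⟨a ∘ e, hli.comp e e.injective⟩

theorem quoZ (C : Cf π τ x₀ A n) {F : ℕ → Submodule ℝ E} (hdim : finrank ℝ (hh π A) = n)
    (hall : ∀ X ∈ hh π A, (∀ y, X y ∈ Vu π A F) → X ∈ JJ F) [(Kq π (Vu π A F)).Normal] :
    ∃ f : (Fin (n - finrank ℝ (hu π A F)) → ℤ) →+
      Additive (A.map (QuotientGroup.mk' (Kq π (Vu π A F)))), Function.Injective f := by
  obtain ⟨f0, hf0⟩ := C.fr
  let φ : (Fin n → ℤ) →+ (E →L[ℝ] E) :=
    { toFun := fun z => lg (π ((Additive.toMul (f0 z) : A) : Γ))
      map_zero' := by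
        change lg (π ((Additive.toMul (f0 0) : A) : Γ)) = 0
        rw [map_zero, toMul_zero, Subgroup.coe_one, map_one, core_lg_one]
      map_add' := fun z w => by
        change lg (π ((Additive.toMul (f0 (z + w)) : A) : Γ)) = _
        rw [map_add, toMul_add, Subgroup.coe_mul]
        exact core_lg_mul C.comm C.uni (Subtype.mem _) (Subtype.mem _) }
  have hφ : ∀ z, φ z = lg (π ((Additive.toMul (f0 z) : A) : Γ)) := fun z => rfl
  have hφh : ∀ z, φ z ∈ hh π A := fun z => Submodule.subset_span ⟨_, Subtype.mem _, rfl⟩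
  obtain ⟨v, hv⟩ : ∃ v : Fin n → (E →L[ℝ] E), v = fun i => φ (Pi.single i 1) := ⟨_, rfl⟩
  have hsum : ∀ z : Fin n → ℤ, φ z = ∑ i, z i • v i := by
    intro z
    have e : z = ∑ i, z i • (Pi.single i (1 : ℤ) : Fin n → ℤ) := by
      ext j
      rw [Finset.sum_apply, Finset.sum_eq_single j]
      · simp
      · intro b _ hb
        simp [Pi.single_apply, Ne.symm hb]
      · intro h
        exact absurd (Finset.mem_univ j) h
    conv_lhs => rw [e]
    rw [map_sum, hv]
    refine Finset.sum_congr rfl (fun i _ => ?_)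
    rw [map_zsmul]
  have hspan : Submodule.span ℝ (Set.range v) = hh π A := by
    apply le_antisymm
    · rw [Submodule.span_le]
      rintro _ ⟨i, rfl⟩
      rw [hv]
      exact hφh _
    · unfold hh
      rw [Submodule.span_le]
      rintro _ ⟨a, ha, rfl⟩
      obtain ⟨z, hz⟩ := hf0.2 (Additive.ofMul ⟨a, ha⟩)
      have e : lg (π a) = φ z := by
        rw [hφ, hz]; rfl
      rw [e, hsum]
      refine Submodule.sum_mem _ (fun i _ => ?_)
      exact zsmul_mem (Submodule.subset_span (Set.mem_range_self i)) _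
  have hle : hu π A F ≤ hh π A := inf_le_left
  obtain ⟨a, ha⟩ := Qz_pick v (hh π A) (hu π A F) hle hspan hdim
  let g : (Fin (n - finrank ℝ (hu π A F)) → ℤ) →+ (Fin n → ℤ) :=
    { toFun := fun w => ∑ j, w j • (Pi.single (a j) (1 : ℤ) : Fin n → ℤ)
      map_zero' := by simp
      map_add' := fun w w' => by
        simp only [Pi.add_apply, add_smul, Finset.sum_add_distrib] }
  have hg : ∀ w, φ (g w) = ∑ j, w j • v (a j) := by
    intro w
    have e : g w = ∑ j, w j • (Pi.single (a j) (1 : ℤ) : Fin n → ℤ) := rfl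
    rw [e, map_sum, hv]
    refine Finset.sum_congr rfl (fun i _ => ?_)
    rw [map_zsmul]
  let q : Additive A →+ Additive (A.map (QuotientGroup.mk' (Kq π (Vu π A F)))) :=
    MonoidHom.toAdditive ((QuotientGroup.mk' (Kq π (Vu π A F))).subgroupMap A)
  refine ⟨q.comp (f0.comp g), ?_⟩
  rw [injective_iff_map_eq_zero]
  intro w hw
  have h1 : QuotientGroup.mk' (Kq π (Vu π A F)) ((Additive.toMul (f0 (g w)) : A) : Γ) = 1 :=
    congrArg Subtype.val hw
  have h2 : ((Additive.toMul (f0 (g w)) : A) : Γ) ∈ Kq π (Vu π A F) :=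
    (QuotientGroup.eq_one_iff _).1 h1
  have h3 : φ (g w) ∈ hu π A F := by
    refine ⟨hφh _, ?_⟩
    refine hall _ (hφh _) (fun y => ?_)
    rw [hφ]
    obtain ⟨Y, hY, -⟩ := lg_spec (C.uni _ (Subtype.mem (Additive.toMul (f0 (g w)) : A)))
    have e : lg (π ((Additive.toMul (f0 (g w)) : A) : Γ)) y =
        π ((Additive.toMul (f0 (g w)) : A) : Γ) (Y y) - Y y := by
      rw [hY]; rfl
    rw [e]
    exact h2 _
  have h4 : ∑ j, (w j : ℝ) • (hu π A F).mkQ (v (a j)) = 0 := by
    have e : (hu π A F).mkQ (φ (g w)) = 0 := by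
      rw [Submodule.mkQ_apply, Submodule.Quotient.mk_eq_zero]
      exact h3
    rw [hg, map_sum] at e
    rw [← e]
    refine Finset.sum_congr rfl (fun j _ => ?_)
    rw [map_zsmul, Int.cast_smul_eq_zsmul]
  rw [Fintype.linearIndependent_iff] at ha
  have h5 := ha _ h4
  ext j
  have h6 := h5 j
  simpa using h6

end Pool.Agent.H1.T4
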